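import Mathlib
import Pool.Agent.Y298.CA.Stm
import Pool.Agent.TH136.Tip.Push

/-!
# Transfer of the area by a map with small distortion (S_TR)
-/

set_option autoImplicit false

open Set Filter Metric MeasureTheory Topology

namespace Pool.Agent.Y274.CA

open Pool.Agent.TH279.MD Pool.Agent.Y298.CA

theorem gg_succ (d : ℕ) (γ : ℂ → ℂ) (n : ℕ) (x : ℂ) :
    GG d γ (n + 1) x = GG d γ n x ^ d + γ x := by
  unfold GG
  rw [Function.iterate_succ_apply']
  rfl

theorem gg_diff {d : ℕ} {γ : ℂ → ℂ} {U : Set ℂ} (h : DifferentiableOn ℂ γ U) (n : ℕ) :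
    DifferentiableOn ℂ (GG d γ n) U := by
  induction n with
  | zero => exact differentiableOn_id
  | succ n ih =>
    have e : GG d γ (n + 1) = fun x => GG d γ n x ^ d + γ x := funext (gg_succ d γ n)
    rw [e]
    exact (ih.pow d).add h

theorem tr : S_TR := by
  intro d c₁ r κ κ₀ γ w ρ n D hd hρ hγ hnear hslow hκ hD hDρ hdist
  set G := GG d γ n with hG
  have hGd : DifferentiableOn ℂ G (ball w ρ) := gg_diff hγ n
  have hGa : ∀ x ∈ ball w ρ, DifferentiableAt ℂ G x := fun x hx =>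
    hGd.differentiableAt (isOpen_ball.mem_nhds hx)
  have hD0 : 0 < ‖D‖ := norm_pos_iff.2 hD
  have hwU : w ∈ ball w ρ := mem_ball_self hρ
  have h2 : ∀ x ∈ ball w ρ, ∀ y ∈ ball w ρ,
      ‖(G y - G x) - D * (y - x)‖ ≤ 1 / 4 * ‖D‖ * ‖y - x‖ := by
    intro x hx y hy
    have hb : ∀ z ∈ ball w ρ, ‖deriv (fun z => G z - D * z) z‖ ≤ 1 / 4 * ‖D‖ := by
      intro z hz
      have h1 : HasDerivAt (fun z => G z - D * z) (deriv G z - D * 1) z :=
        (hGa z hz).hasDerivAt.sub ((hasDerivAt_id z).const_mul D)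
      rw [h1.deriv, mul_one]
      exact hdist z hz
    have h := Convex.norm_image_sub_le_of_norm_deriv_le (f := fun z => G z - D * z)
      (C := 1 / 4 * ‖D‖) (s := ball w ρ)
      (fun z hz => (hGa z hz).sub (differentiableAt_id.const_mul D)) hb (convex_ball w ρ) hx hy
    have e : (G y - G x) - D * (y - x) = (G y - D * y) - (G x - D * x) := by ring
    rw [e]
    exact h
  have hup : ∀ x ∈ ball w ρ, ∀ y ∈ ball w ρ, ‖G y - G x‖ ≤ 5 / 4 * ‖D‖ * ‖y - x‖ := by
    intro x hx y hy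
    have h := h2 x hx y hy
    have h3 : ‖G y - G x‖ ≤ ‖(G y - G x) - D * (y - x)‖ + ‖D * (y - x)‖ := by
      have := norm_add_le ((G y - G x) - D * (y - x)) (D * (y - x))
      rwa [sub_add_cancel] at this
    rw [norm_mul] at h3
    linarith
  have hlow : ∀ x ∈ ball w ρ, ∀ y ∈ ball w ρ, 3 / 4 * ‖D‖ * ‖y - x‖ ≤ ‖G y - G x‖ := by
    intro x hx y hy
    have h := h2 x hx y hy
    have h3 : ‖D * (y - x)‖ ≤ ‖G y - G x‖ + ‖(G y - G x) - D * (y - x)‖ := by
      have := norm_sub_le (G y - G x) ((G y - G x) - D * (y - x))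
      rwa [sub_sub_cancel] at this
    rw [norm_mul] at h3
    linarith
  have hinj : InjOn G (ball w ρ) := by
    intro x hx y hy h
    have h3 := hlow x hx y hy
    rw [h, sub_self, norm_zero] at h3
    have h4 : ‖y - x‖ ≤ 0 := by
      by_contra hcon
      push Not at hcon
      have : 0 < 3 / 4 * ‖D‖ * ‖y - x‖ := by positivity
      linarith
    have h5 : y - x = 0 := norm_le_zero_iff.1 h4
    exact (sub_eq_zero.1 h5).symm
  have hder : ∀ x ∈ ball w ρ, 3 / 4 * ‖D‖ ≤ ‖deriv G x‖ := by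
    intro x hx
    have h := hdist x hx
    have h3 : ‖D‖ ≤ ‖deriv G x‖ + ‖deriv G x - D‖ := by
      have := norm_sub_le (deriv G x) (deriv G x - D)
      rwa [sub_sub_cancel] at this
    linarith
  set T' : ℝ := 3 / 16 * ‖D‖ * ρ with hT'
  have hT0 : 0 < T' := by positivity
  have hT1 : T' ≤ 1 := by
    rw [hT']
    nlinarith
  have hsurj : ball (G w) T' ⊆ G '' closedBall w (ρ / 2) := by
    have hcl : closedBall w (ρ / 2) ⊆ ball w ρ := closedBall_subset_ball (by linarith)
    have h := DiffContOnCl.ball_subset_image_closedBall (f := G) (z₀ := w) (r := ρ / 2)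
      (ε := 3 / 8 * ‖D‖ * ρ)
      (DifferentiableOn.diffContOnCl (hGd.mono (closure_ball_subset_closedBall.trans hcl)))
      (by positivity) ?_ ?_
    · have e : 3 / 8 * ‖D‖ * ρ / 2 = T' := by
        rw [hT']
        ring
      rwa [e] at h
    · intro z hz
      have hzU : z ∈ ball w ρ := hcl (sphere_subset_closedBall hz)
      have h3 := hlow w hwU z hzU
      rw [mem_sphere_iff_norm.1 hz] at h3
      linarith
    · have h3 : ∀ᶠ z in 𝓝[≠] w, G z ≠ G w := by
        filter_upwards [self_mem_nhdsWithin, nhdsWithin_le_nhds (isOpen_ball.mem_nhds hwU)] with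
          z hz1 hz2 h
        exact hz1 (hinj hz2 hwU h)
      exact h3.frequently.filter_mono nhdsWithin_le_nhds
  set g : ℂ → ℂ := Function.invFunOn G (ball w ρ) with hgd
  have hg : ∀ z ∈ ball (G w) T', g z ∈ ball w ρ ∧ G (g z) = z := by
    intro z hz
    obtain ⟨x, hx, hxz⟩ := hsurj hz
    have hxU : x ∈ ball w ρ := closedBall_subset_ball (by linarith) hx
    exact ⟨Function.invFunOn_mem ⟨x, hxU, hxz⟩, Function.invFunOn_eq ⟨x, hxU, hxz⟩⟩
  have hcont : ∀ z ∈ ball (G w) T', ContinuousAt g z := by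
    have hL : LipschitzOnWith (Real.toNNReal (4 / (3 * ‖D‖))) g (ball (G w) T') := by
      refine LipschitzOnWith.of_dist_le_mul fun x hx y hy => ?_
      rw [Real.coe_toNNReal _ (by positivity), dist_eq_norm, dist_eq_norm]
      have h3 := hlow (g y) (hg y hy).1 (g x) (hg x hx).1
      rw [(hg x hx).2, (hg y hy).2] at h3
      rw [div_mul_eq_mul_div, le_div_iff₀ (by positivity)]
      linarith
    exact fun z hz => hL.continuousOn.continuousAt (isOpen_ball.mem_nhds hz)
  have hgder : ∀ z ∈ ball (G w) T', HasDerivAt g (deriv G (g z))⁻¹ z := by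
    intro z hz
    refine HasDerivAt.of_local_left_inverse (hcont z hz) (hGa _ (hg z hz).1).hasDerivAt ?_ ?_
    · intro h
      have h3 := hder _ (hg z hz).1
      rw [h, norm_zero] at h3
      have : 0 < 3 / 4 * ‖D‖ := by positivity
      linarith
    · filter_upwards [isOpen_ball.mem_nhds hz] with y hy using (hg y hy).2
  have hγder : ∀ z ∈ ball (G w) T',
      HasDerivAt (γ ∘ g) (deriv γ (g z) * (deriv G (g z))⁻¹) z := fun z hz =>
    ((hγ.differentiableAt (isOpen_ball.mem_nhds (hg z hz).1)).hasDerivAt.comp z (hgder z hz))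
  have hκ0 : 0 ≤ κ₀ := (norm_nonneg _).trans (hslow w hwU)
  have hCv : Cv c₁ r κ (G w) T' (γ ∘ g) := by
    refine ⟨fun z hz => (hγder z hz).differentiableAt.differentiableWithinAt,
      fun z hz => hnear _ (hg z hz).1, fun z hz => ?_⟩
    rw [(hγder z hz).deriv, norm_mul, norm_inv]
    have h3 := hslow _ (hg z hz).1
    have h4 := hder _ (hg z hz).1
    have h5 : 0 < ‖deriv G (g z)‖ := lt_of_lt_of_le (by positivity) h4
    rw [← div_eq_mul_inv, div_le_iff₀ h5]
    have hκ' : 0 ≤ κ := by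
      by_contra hcon
      push Not at hcon
      have : κ * ‖D‖ < 0 := mul_neg_of_neg_of_pos hcon hD0
      linarith
    calc ‖deriv γ (g z)‖ ≤ κ₀ := h3
      _ ≤ κ * (3 / 4 * ‖D‖) := by linarith
      _ ≤ κ * ‖deriv G (g z)‖ := mul_le_mul_of_nonneg_left h4 hκ'
  have hSS : volume (BB d (γ ∘ g) ∩ ball (G w) (T' / 2)) ≤ SS d c₁ r κ := by
    unfold SS
    exact le_iSup_of_le (G w) (le_iSup_of_le T' (le_iSup_of_le (γ ∘ g)
      (le_iSup_of_le ⟨hT0, hT1, hCv⟩ le_rfl)))
  set E : Set ℂ := BB d γ ∩ closedBall w (ρ / 16) with hE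
  have hcl16 : closedBall w (ρ / 16) ⊆ ball w ρ := closedBall_subset_ball (by linarith)
  have hEU : E ⊆ ball w ρ := fun x hx => hcl16 hx.2
  have himg : G '' E ⊆ BB d (γ ∘ g) ∩ ball (G w) (T' / 2) := by
    rintro _ ⟨x, ⟨hxB, hxb⟩, rfl⟩
    have hxU := hcl16 hxb
    have h3 : G x ∈ ball (G w) (T' / 2) := by
      rw [mem_ball_iff_norm]
      have h4 := hup w hwU x hxU
      have h5 := mem_closedBall_iff_norm.1 hxb
      have h6 : 5 / 4 * ‖D‖ * ‖x - w‖ ≤ 5 / 4 * ‖D‖ * (ρ / 16) :=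
        mul_le_mul_of_nonneg_left h5 (by positivity)
      have h7 : 0 < ‖D‖ * ρ := by positivity
      rw [hT']
      nlinarith
    refine ⟨fun j => ?_, h3⟩
    have h4 : G x ∈ ball (G w) T' := ball_subset_ball (by linarith) h3
    have h5 : g (G x) = x := hinj (hg _ h4).1 hxU (hg _ h4).2
    have h6 : GG d (γ ∘ g) j (G x) = GG d γ (j + n) x := by
      unfold GG
      rw [Function.iterate_add_apply, Function.comp_apply, h5]
      rfl
    rw [h6]
    exact hxB _
  have hEm : MeasurableSet E := by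
    have e : E = ⋂ j, (closedBall w (ρ / 16) ∩ GG d γ j ⁻¹' {z : ℂ | ‖z‖ ≤ 2}) := by
      ext x
      simp only [hE, BB, mem_inter_iff, mem_ofPred_eq, mem_iInter, mem_preimage]
      exact ⟨fun h j => ⟨h.2, h.1 j⟩, fun h => ⟨fun j => (h j).2, (h 0).1⟩⟩
    rw [e]
    refine (isClosed_iInter fun j => ?_).measurableSet
    exact (((gg_diff hγ j).mono hcl16).continuousOn).preimage_isClosed_of_isClosed
      isClosed_closedBall (isClosed_le continuous_norm continuous_const)
  have h3 := lintegral_abs_det_fderiv_eq_addHaar_image (volume : Measure ℂ) hEm (f := G)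
    (f' := fun z => (ContinuousLinearMap.toSpanSingleton ℂ (deriv G z)).restrictScalars ℝ)
    (fun z hz => ((hGa z (hEU hz)).hasDerivAt.hasFDerivAt.restrictScalars ℝ).hasFDerivWithinAt)
    (hinj.mono hEU)
  have h4 : ENNReal.ofReal (9 / 16 * ‖D‖ ^ 2) * volume E ≤ SS d c₁ r κ := by
    calc ENNReal.ofReal (9 / 16 * ‖D‖ ^ 2) * volume E
        = ∫⁻ x in E, ENNReal.ofReal (9 / 16 * ‖D‖ ^ 2) := (setLIntegral_const _ _).symm
      _ ≤ ∫⁻ x in E, ENNReal.ofReal |((ContinuousLinearMap.toSpanSingleton ℂ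
            (deriv G x)).restrictScalars ℝ).det| := by
          refine setLIntegral_mono' hEm fun x hx => ENNReal.ofReal_le_ofReal ?_
          rw [Pool.Agent.H713R2.det_mul_real, abs_of_nonneg (by positivity)]
          have h5 := hder x (hEU hx)
          nlinarith
      _ = volume (G '' E) := h3
      _ ≤ volume (BB d (γ ∘ g) ∩ ball (G w) (T' / 2)) := measure_mono himg
      _ ≤ SS d c₁ r κ := hSS
  have h5 : volume E = ENNReal.ofReal (16 / (9 * ‖D‖ ^ 2)) *
      (ENNReal.ofReal (9 / 16 * ‖D‖ ^ 2) * volume E) := by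
    rw [← mul_assoc, ← ENNReal.ofReal_mul (by positivity)]
    have e : 16 / (9 * ‖D‖ ^ 2) * (9 / 16 * ‖D‖ ^ 2) = 1 := by
      field_simp
    rw [e, ENNReal.ofReal_one, one_mul]
  rw [h5]
  refine mul_le_mul' (ENNReal.ofReal_le_ofReal ?_) h4
  rw [div_le_div_iff₀ (by positivity) (by positivity)]
  nlinarith [sq_nonneg ‖D‖]

end Pool.Agent.Y274.CA
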